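import Mathlib

/-!
# The conformal Levy-Gromov inequality fails for Liouville supersolutions

The anisotropic Gaussian conformal factors
`u(x) = (1/2) log (2 (a + 1)) - (a x₀² + x₁²)` satisfy
`Δ u + exp (2 u) ≤ 0` on the whole plane.  The upper half plane `Ω` has `g`-perimeter
`√(2 π (a + 1) / a)`, while both `Ω` and its complement have `g`-area
`π (a + 1) / (2 √a)`.  Hence `L(Ω)² / (A(Ω) A(Ωᶜ)) → 0` as `a → ∞`.
-/

open MeasureTheory Laplacian InnerProductSpace Set
open scoped ENNReal ContDiff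

namespace Pool.Agent.Results.MP_c070b6_an.NoLevyGromov

/-- The Euclidean plane. -/
abbrev Plane := EuclideanSpace ℝ (Fin 2)

/-- `u` is a `C²` supersolution of the Liouville equation on the whole plane. -/
structure IsLiouvilleSupersolution (u : Plane → ℝ) : Prop where
  contDiff : ContDiff ℝ 2 u
  laplacian_le : ∀ x, Δ u x + Real.exp (2 * u x) ≤ 0

/-- The area of `S` for the metric `exp (2 u) δ`. -/
noncomputable def gArea (u : Plane → ℝ) (S : Set Plane) : ℝ≥0∞ :=
  ∫⁻ x in S, ENNReal.ofReal (Real.exp (2 * u x))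

/-- The length of the topological boundary of `Ω` for the metric `exp (2 u) δ`: the integral of
`exp u` over `frontier Ω` with respect to arc length (one-dimensional Hausdorff measure). -/
noncomputable def gPerimeter (u : Plane → ℝ) (Ω : Set Plane) : ℝ≥0∞ :=
  ∫⁻ x in frontier Ω, ENNReal.ofReal (Real.exp (u x)) ∂(Measure.hausdorffMeasure 1)

/-- A smooth domain: a nonempty connected open set whose boundary is smooth, i.e. near every
boundary point `Ω` is the sublevel set `{φ < 0}` of a `C^∞` function without critical points. -/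
structure IsSmoothDomain (Ω : Set Plane) : Prop where
  isOpen : IsOpen Ω
  isConnected : IsConnected Ω
  smooth_boundary : ∀ p ∈ frontier Ω, ∃ U : Set Plane, IsOpen U ∧ p ∈ U ∧
    ∃ φ : Plane → ℝ, ContDiff ℝ ∞ φ ∧ (∀ x ∈ U, fderiv ℝ φ x ≠ 0) ∧
      Ω ∩ U = {x | x ∈ U ∧ φ x < 0}

/-! ### The supersolution -/

noncomputable def uu (a : ℝ) (x : Plane) : ℝ :=
  Real.log (2 * (a + 1)) / 2 - (a * (x 0) ^ 2 + (x 1) ^ 2)

noncomputable def p0 : Plane →L[ℝ] ℝ := EuclideanSpace.proj (0 : Fin 2)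
noncomputable def p1 : Plane →L[ℝ] ℝ := EuclideanSpace.proj (1 : Fin 2)

lemma contDiff_uu (a : ℝ) : ContDiff ℝ ∞ (uu a) := by
  have h0 : ContDiff ℝ ∞ (fun x : Plane => p0 x) := p0.contDiff
  have h1 : ContDiff ℝ ∞ (fun x : Plane => p1 x) := p1.contDiff
  have : uu a = fun x => Real.log (2 * (a + 1)) / 2 - (a * (p0 x) ^ 2 + (p1 x) ^ 2) := by
    ext x; simp [uu, p0, p1]
  rw [this]
  exact contDiff_const.sub ((contDiff_const.mul (h0.pow 2)).add (h1.pow 2))

lemma hasFDerivAt_uu (a : ℝ) (x : Plane) :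
    HasFDerivAt (uu a) ((-(2 * a * p0 x)) • p0 + (-(2 * p1 x)) • p1) x := by
  have h0 : HasFDerivAt (fun x : Plane => p0 x) p0 x := p0.hasFDerivAt
  have h1 : HasFDerivAt (fun x : Plane => p1 x) p1 x := p1.hasFDerivAt
  have : uu a = fun x => Real.log (2 * (a + 1)) / 2 - (a * (p0 x) ^ 2 + (p1 x) ^ 2) := by
    ext x; simp [uu, p0, p1]
  rw [this]
  have h := (((h0.pow 2).const_mul a).add (h1.pow 2)).const_sub (Real.log (2 * (a + 1)) / 2)
  refine h.congr_fderiv ?_
  ext v
  simp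
  ring

lemma fderiv_uu (a : ℝ) :
    fderiv ℝ (uu a) = fun x => (-(2 * a * p0 x)) • p0 + (-(2 * p1 x)) • p1 := by
  ext1 x
  exact (hasFDerivAt_uu a x).fderiv

lemma hasFDerivAt_fderiv_uu (a : ℝ) (x : Plane) :
    HasFDerivAt (fderiv ℝ (uu a))
      ((-(2 * a)) • p0.smulRight p0 + (-2 : ℝ) • p1.smulRight p1) x := by
  rw [fderiv_uu]
  have : (fun x : Plane => (-(2 * a * p0 x)) • p0 + (-(2 * p1 x)) • p1) =
      fun x => ((-(2 * a)) • p0.smulRight p0 + (-2 : ℝ) • p1.smulRight p1) x := by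
    ext x v
    simp
    ring
  rw [this]
  exact ContinuousLinearMap.hasFDerivAt _

lemma laplacian_uu (a : ℝ) (x : Plane) : Δ (uu a) x = -(2 * (a + 1)) := by
  rw [laplacian_eq_iteratedFDeriv_orthonormalBasis (uu a) (EuclideanSpace.basisFun (Fin 2) ℝ)]
  simp only [iteratedFDeriv_two_apply, (hasFDerivAt_fderiv_uu a x).fderiv]
  simp [p0, p1, Fin.sum_univ_two]
  ring

lemma exp_two_uu_eq {a : ℝ} (ha : 0 < a) (x : Plane) :
    Real.exp (2 * uu a x) =
      2 * (a + 1) * (Real.exp (-(2 * a) * (x 0) ^ 2) * Real.exp (-2 * (x 1) ^ 2)) := by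
  have h : (0 : ℝ) < 2 * (a + 1) := by positivity
  have h2 : 2 * (a + 1) * (Real.exp (-(2 * a) * (x 0) ^ 2) * Real.exp (-2 * (x 1) ^ 2)) =
      Real.exp (Real.log (2 * (a + 1))) *
        (Real.exp (-(2 * a) * (x 0) ^ 2) * Real.exp (-2 * (x 1) ^ 2)) := by
    rw [Real.exp_log h]
  rw [h2, ← Real.exp_add, ← Real.exp_add]
  congr 1
  simp only [uu]
  ring

lemma supersolution_uu {a : ℝ} (ha : 0 < a) : IsLiouvilleSupersolution (uu a) := by
  refine ⟨by exact_mod_cast contDiff_infty.mp (contDiff_uu a) 2, fun x => ?_⟩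
  rw [laplacian_uu, exp_two_uu_eq ha]
  have h1 : Real.exp (-(2 * a) * (x 0) ^ 2) ≤ 1 := by
    apply Real.exp_le_one_iff.mpr
    nlinarith [mul_nonneg ha.le (sq_nonneg (x 0))]
  have h2 : Real.exp (-2 * (x 1) ^ 2) ≤ 1 := by
    apply Real.exp_le_one_iff.mpr
    nlinarith [sq_nonneg (x 1)]
  have h3 : Real.exp (-(2 * a) * (x 0) ^ 2) * Real.exp (-2 * (x 1) ^ 2) ≤ 1 :=
    mul_le_one₀ h1 (Real.exp_pos _).le h2
  nlinarith [mul_le_mul_of_nonneg_left h3 (show (0 : ℝ) ≤ 2 * (a + 1) by positivity)]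

/-! ### Integrals -/

/-- Fubini for the sets `{x | x 1 ∈ T}`. -/
lemma lintegral_plane (F : ℝ → ℝ≥0∞) (G : ℝ → ℝ≥0∞) (hF : Measurable F) (hG : Measurable G)
    (T : Set ℝ) (hT : MeasurableSet T) :
    ∫⁻ x : Plane in {x | x 1 ∈ T}, F (x 0) * G (x 1) =
      (∫⁻ s, F s) * ∫⁻ t in T, G t := by
  have e1 := PiLp.volume_preserving_ofLp (Fin 2)
  have e2 := volume_preserving_finTwoArrow ℝ
  have e3 := e2.comp e1
  have hS : MeasurableSet {x : Plane | x 1 ∈ T} := by
    have : Measurable (fun x : Plane => x 1) := by fun_prop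
    exact this hT
  rw [← lintegral_indicator hS]
  have : ∀ x : Plane, ({x : Plane | x 1 ∈ T}).indicator (fun x => F (x 0) * G (x 1)) x
      = (fun z : ℝ × ℝ => F z.1 * T.indicator G z.2)
        ((MeasurableEquiv.finTwoArrow ∘ WithLp.ofLp) x) := by
    intro x
    by_cases h : x 1 ∈ T
    · rw [indicator_of_mem (by exact h)]
      simp [h, MeasurableEquiv.finTwoArrow]
    · rw [indicator_of_notMem (by exact h)]
      simp [h, MeasurableEquiv.finTwoArrow]
  simp_rw [this]
  rw [e3.lintegral_comp (f := fun z : ℝ × ℝ => F z.1 * T.indicator G z.2)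
    ((hF.comp measurable_fst).mul ((hG.indicator hT).comp measurable_snd))]
  rw [Measure.volume_eq_prod, lintegral_prod_mul hF.aemeasurable (hG.indicator hT).aemeasurable,
    lintegral_indicator hT]

lemma lint_gauss {b : ℝ} (hb : 0 < b) :
    ∫⁻ t : ℝ, ENNReal.ofReal (Real.exp (-b * t ^ 2)) = ENNReal.ofReal (√(Real.pi / b)) := by
  rw [← integral_gaussian b, ofReal_integral_eq_lintegral_ofReal (integrable_exp_neg_mul_sq hb)]
  exact Filter.Eventually.of_forall fun x => (Real.exp_pos _).le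

lemma lint_gauss_Ioi {b : ℝ} (hb : 0 < b) :
    ∫⁻ t : ℝ in Ioi 0, ENNReal.ofReal (Real.exp (-b * t ^ 2)) =
      ENNReal.ofReal (√(Real.pi / b) / 2) := by
  rw [← integral_gaussian_Ioi b,
    ofReal_integral_eq_lintegral_ofReal (integrable_exp_neg_mul_sq hb).integrableOn]
  exact Filter.Eventually.of_forall fun x => (Real.exp_pos _).le

lemma lint_gauss_Iic {b : ℝ} (hb : 0 < b) :
    ∫⁻ t : ℝ in Iic 0, ENNReal.ofReal (Real.exp (-b * t ^ 2)) =
      ENNReal.ofReal (√(Real.pi / b) / 2) := by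
  have h1 : ∫ t : ℝ in Iic 0, Real.exp (-b * t ^ 2) = √(Real.pi / b) / 2 := by
    have := integral_comp_neg_Iic (0 : ℝ) (fun t => Real.exp (-b * t ^ 2))
    simp only [neg_zero, neg_sq] at this
    rw [this, integral_gaussian_Ioi]
  rw [← h1, ofReal_integral_eq_lintegral_ofReal (integrable_exp_neg_mul_sq hb).integrableOn]
  exact Filter.Eventually.of_forall fun x => (Real.exp_pos _).le

lemma ofReal_exp_two_uu {a : ℝ} (ha : 0 < a) (x : Plane) :
    ENNReal.ofReal (Real.exp (2 * uu a x)) =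
      ENNReal.ofReal (2 * (a + 1)) * (ENNReal.ofReal (Real.exp (-(2 * a) * (x 0) ^ 2)) *
        ENNReal.ofReal (Real.exp (-2 * (x 1) ^ 2))) := by
  rw [← ENNReal.ofReal_mul (Real.exp_pos _).le, ← ENNReal.ofReal_mul (by positivity),
    exp_two_uu_eq ha]

lemma gArea_strip {a : ℝ} (ha : 0 < a) (T : Set ℝ) (hT : MeasurableSet T) :
    gArea (uu a) {x | x 1 ∈ T} =
      ENNReal.ofReal (2 * (a + 1)) * (ENNReal.ofReal (√(Real.pi / (2 * a))) *
        ∫⁻ t in T, ENNReal.ofReal (Real.exp (-2 * t ^ 2))) := by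
  unfold gArea
  simp_rw [ofReal_exp_two_uu ha]
  rw [lintegral_const_mul _ (by fun_prop)]
  rw [lintegral_plane (fun s => ENNReal.ofReal (Real.exp (-(2 * a) * s ^ 2)))
    (fun t => ENNReal.ofReal (Real.exp (-2 * t ^ 2))) (by fun_prop) (by fun_prop) T hT,
    lint_gauss (by positivity)]

lemma exp_uu {a : ℝ} (ha : 0 < a) (x : Plane) :
    ENNReal.ofReal (Real.exp (uu a x)) =
      ENNReal.ofReal (√(2 * (a + 1))) * (ENNReal.ofReal (Real.exp (-a * (x 0) ^ 2)) *
        ENNReal.ofReal (Real.exp (-1 * (x 1) ^ 2))) := by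
  rw [← ENNReal.ofReal_mul (Real.exp_pos _).le, ← ENNReal.ofReal_mul (by positivity)]
  congr 1
  have h : (0 : ℝ) < 2 * (a + 1) := by positivity
  have h2 : √(2 * (a + 1)) = Real.exp (Real.log (2 * (a + 1)) / 2) := by
    rw [← Real.log_sqrt h.le, Real.exp_log (Real.sqrt_pos.mpr h)]
  rw [h2, ← Real.exp_add, ← Real.exp_add]
  congr 1
  simp only [uu]
  ring

/-! ### The half plane -/

/-- The upper half plane. -/
def halfPlane : Set Plane := {x | 0 < x 1}

/-- The parametrised horizontal axis. -/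
noncomputable def ax (t : ℝ) : Plane := !₂[t, 0]

lemma isometry_ax : Isometry ax := by
  refine Isometry.of_dist_eq fun s t => ?_
  simp [ax, EuclideanSpace.dist_eq, Real.dist_eq, Real.sqrt_sq_eq_abs]

lemma range_ax : range ax = {x : Plane | x 1 = 0} := by
  ext x
  constructor
  · rintro ⟨t, rfl⟩
    simp [ax]
  · intro hx
    refine ⟨x 0, ?_⟩
    ext i
    fin_cases i
    · simp [ax]
    · simpa [ax] using hx.symm

lemma isOpenMap_coord : IsOpenMap (fun x : Plane => x 1) := by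
  have hs : Function.Surjective p1 := by
    intro t
    exact ⟨!₂[0, t], by simp [p1]⟩
  have h := p1.isOpenMap hs
  exact h

lemma frontier_halfPlane : frontier halfPlane = {x : Plane | x 1 = 0} := by
  have hc : Continuous (fun x : Plane => x 1) := by fun_prop
  have : halfPlane = (fun x : Plane => x 1) ⁻¹' (Ioi 0) := rfl
  rw [this, ← isOpenMap_coord.preimage_frontier_eq_frontier_preimage hc, frontier_Ioi]
  rfl

lemma isOpen_halfPlane : IsOpen halfPlane := by
  have hc : Continuous (fun x : Plane => x 1) := by fun_prop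
  exact isOpen_lt continuous_const hc

lemma convex_halfPlane : Convex ℝ halfPlane := by
  have : halfPlane = {x : Plane | 0 < p1 x} := rfl
  rw [this]
  exact convex_halfSpace_gt p1.isLinear 0

lemma isSmoothDomain_halfPlane : IsSmoothDomain halfPlane := by
  refine ⟨isOpen_halfPlane, ⟨⟨!₂[0, 1], by simp [halfPlane]⟩, convex_halfPlane.isPreconnected⟩, ?_⟩
  intro p _
  refine ⟨univ, isOpen_univ, mem_univ _, fun x => (-p1) x, (-p1).contDiff, ?_, ?_⟩
  · intro x _ h
    have h1 : fderiv ℝ (fun x => (-p1) x) x = -p1 := (-p1).fderiv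
    rw [h1] at h
    have h2 := congrArg (fun L : Plane →L[ℝ] ℝ => L !₂[0, 1]) h
    simp [p1] at h2
  · ext x
    simp [halfPlane, p1]

lemma gPerimeter_halfPlane {a : ℝ} (ha : 0 < a) :
    gPerimeter (uu a) halfPlane = ENNReal.ofReal (√(2 * (a + 1)) * √(Real.pi / a)) := by
  unfold gPerimeter
  rw [frontier_halfPlane, ← range_ax,
    ← isometry_ax.map_hausdorffMeasure (Or.inl zero_le_one), hausdorffMeasure_real,
    lintegral_map (by
      have : Continuous (uu a) := (contDiff_uu a).continuous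
      fun_prop) isometry_ax.continuous.measurable]
  simp_rw [exp_uu ha]
  rw [lintegral_const_mul _ (by
    have := isometry_ax.continuous
    fun_prop)]
  have : ∀ t : ℝ, ENNReal.ofReal (Real.exp (-a * (ax t) 0 ^ 2)) *
      ENNReal.ofReal (Real.exp (-1 * (ax t) 1 ^ 2)) = ENNReal.ofReal (Real.exp (-a * t ^ 2)) := by
    intro t
    simp [ax]
  simp_rw [this]
  rw [lint_gauss ha, ENNReal.ofReal_mul (by positivity)]

lemma gArea_halfPlane {a : ℝ} (ha : 0 < a) :
    gArea (uu a) halfPlane =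
      ENNReal.ofReal (2 * (a + 1) * (√(Real.pi / (2 * a)) * (√(Real.pi / 2) / 2))) := by
  have := gArea_strip ha (Ioi 0) measurableSet_Ioi
  rw [lint_gauss_Ioi two_pos, ← ENNReal.ofReal_mul (by positivity),
    ← ENNReal.ofReal_mul (by positivity)] at this
  exact this

lemma gArea_halfPlane_compl {a : ℝ} (ha : 0 < a) :
    gArea (uu a) halfPlaneᶜ =
      ENNReal.ofReal (2 * (a + 1) * (√(Real.pi / (2 * a)) * (√(Real.pi / 2) / 2))) := by
  have := gArea_strip ha (Iic 0) measurableSet_Iic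
  rw [lint_gauss_Iic two_pos, ← ENNReal.ofReal_mul (by positivity),
    ← ENNReal.ofReal_mul (by positivity)] at this
  have h2 : halfPlaneᶜ = {x : Plane | x 1 ∈ Iic (0 : ℝ)} := by
    ext x
    simp [halfPlane]
  rw [h2]
  exact this

lemma gArea_univ_lt_top {a : ℝ} (ha : 0 < a) : gArea (uu a) univ < ⊤ := by
  have h := gArea_strip ha univ MeasurableSet.univ
  rw [Measure.restrict_univ, lint_gauss two_pos, ← ENNReal.ofReal_mul (by positivity),
    ← ENNReal.ofReal_mul (by positivity)] at h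
  have h2 : {x : Plane | x 1 ∈ (univ : Set ℝ)} = univ := by ext; simp
  rw [h2] at h
  rw [h]
  exact ENNReal.ofReal_lt_top

/-- For every `c > 0` there are a `C²` supersolution `u` of the Liouville equation on the plane
with finite total area and a smooth domain `Ω` with
`L(Ω)² < c * A(Ω) * A(Ωᶜ)`.  (For `c = 1` this is the negated form of the question.) -/
theorem result : ∀ c : ℝ, 0 < c →
    ∃ u : Plane → ℝ, IsLiouvilleSupersolution u ∧ gArea u univ < ⊤ ∧
      ∃ Ω : Set Plane, IsSmoothDomain Ω ∧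
        gPerimeter u Ω ^ 2 < ENNReal.ofReal c * (gArea u Ω * gArea u Ωᶜ) := by
  intro c hc
  set a : ℝ := 1 + 16 / c with ha_def
  have ha1 : 1 ≤ a := by
    have : 0 < 16 / c := by positivity
    linarith
  have ha : 0 < a := by linarith
  refine ⟨uu a, supersolution_uu ha, gArea_univ_lt_top ha, halfPlane, isSmoothDomain_halfPlane, ?_⟩
  rw [gPerimeter_halfPlane ha, gArea_halfPlane ha, gArea_halfPlane_compl ha,
    ← ENNReal.ofReal_pow (by positivity), ← ENNReal.ofReal_mul (by positivity),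
    ← ENNReal.ofReal_mul hc.le, ENNReal.ofReal_lt_ofReal_iff (by positivity)]
  have s1 : √(2 * (a + 1)) ^ 2 = 2 * (a + 1) := Real.sq_sqrt (by positivity)
  have s2 : √(Real.pi / a) ^ 2 = Real.pi / a := Real.sq_sqrt (by positivity)
  have s3 : √(Real.pi / (2 * a)) ^ 2 = Real.pi / (2 * a) := Real.sq_sqrt (by positivity)
  have s4 : √(Real.pi / 2) ^ 2 = Real.pi / 2 := Real.sq_sqrt (by positivity)
  have lhs : (√(2 * (a + 1)) * √(Real.pi / a)) ^ 2 = 2 * (a + 1) * Real.pi / a := by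
    rw [mul_pow, s1, s2]; ring
  have rhs : c * (2 * (a + 1) * (√(Real.pi / (2 * a)) * (√(Real.pi / 2) / 2)) *
      (2 * (a + 1) * (√(Real.pi / (2 * a)) * (√(Real.pi / 2) / 2)))) =
      c * ((a + 1) ^ 2 * Real.pi ^ 2 / (4 * a)) := by
    have : c * (2 * (a + 1) * (√(Real.pi / (2 * a)) * (√(Real.pi / 2) / 2)) *
      (2 * (a + 1) * (√(Real.pi / (2 * a)) * (√(Real.pi / 2) / 2)))) =
      c * ((a + 1) ^ 2 * (√(Real.pi / (2 * a)) ^ 2 * √(Real.pi / 2) ^ 2)) := by ring
    rw [this, s3, s4]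
    field_simp
    ring
  rw [lhs, rhs, div_lt_iff₀ ha]
  have hpi : 3 < Real.pi := Real.pi_gt_three
  have hca : c * a = c + 16 := by
    rw [ha_def]; field_simp
  have e1 : c * ((a + 1) ^ 2 * Real.pi ^ 2 / (4 * a)) * a = c * (a + 1) * ((a + 1) * Real.pi ^ 2) / 4 := by
    field_simp
  rw [e1]
  have h1 : 16 < c * (a + 1) := by nlinarith
  have h2 : 0 < (a + 1) * Real.pi ^ 2 := by positivity
  have h3 : 16 * ((a + 1) * Real.pi ^ 2) < c * (a + 1) * ((a + 1) * Real.pi ^ 2) :=
    mul_lt_mul_of_pos_right h1 h2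
  nlinarith [mul_pos (show 0 < a + 1 by linarith) Real.pi_pos]

end Pool.Agent.Results.MP_c070b6_an.NoLevyGromov
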