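import Mathlib
import Pool.Agent.Results.MP_c070b6_an.NoLevyGromov

/-!
# Liouville supersolutions of finite but arbitrarily large area

The conformal area bound `A(ℝ²) ≤ 4π` fails for general `C²` supersolutions of the Liouville
equation: no bound at all holds.
-/

open MeasureTheory Laplacian InnerProductSpace Set
open scoped ENNReal ContDiff

namespace Pool.Agent.Results.MP_c070b6_an.TotalAreaUnbounded

open Pool.Agent.Results.MP_c070b6_an.NoLevyGromov

lemma gArea_univ {a : ℝ} (ha : 0 < a) :
    gArea (uu a) univ =
      ENNReal.ofReal (2 * (a + 1) * (√(Real.pi / (2 * a)) * √(Real.pi / 2))) := by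
  have h := gArea_strip ha univ MeasurableSet.univ
  rw [Measure.restrict_univ, lint_gauss two_pos, ← ENNReal.ofReal_mul (by positivity),
    ← ENNReal.ofReal_mul (by positivity)] at h
  have h2 : {x : Plane | x 1 ∈ (univ : Set ℝ)} = univ := by ext; simp
  rw [h2] at h
  exact h

/-- For every real `M` there is a `C²` supersolution `u` of the Liouville equation on the whole
plane whose total area `∫ exp (2 u)` is finite and larger than `M`. -/
theorem result : ∀ M : ℝ, ∃ u : Plane → ℝ, IsLiouvilleSupersolution u ∧
    ENNReal.ofReal M < gArea u univ ∧ gArea u univ < ⊤ := by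
  intro M
  set m : ℝ := 1 + |M| with hm
  have hm1 : 1 ≤ m := by rw [hm]; linarith [abs_nonneg M]
  have hmM : M < m := by rw [hm]; linarith [le_abs_self M]
  set a : ℝ := m ^ 2 with ha_def
  have ha : 0 < a := by positivity
  refine ⟨uu a, supersolution_uu ha, ?_, gArea_univ_lt_top ha⟩
  rw [gArea_univ ha]
  have s1 : √(Real.pi / (2 * a)) * √(Real.pi / 2) = Real.pi / (2 * m) := by
    rw [← Real.sqrt_mul (by positivity)]
    have : Real.pi / (2 * a) * (Real.pi / 2) = (Real.pi / (2 * m)) ^ 2 := by
      rw [ha_def]; field_simp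
    rw [this, Real.sqrt_sq (by positivity)]
  rw [s1, ENNReal.ofReal_lt_ofReal_iff (by positivity)]
  have e : 2 * (a + 1) * (Real.pi / (2 * m)) = (m + 1 / m) * Real.pi := by
    rw [ha_def]; field_simp
  rw [e]
  have hpi : 3 < Real.pi := Real.pi_gt_three
  have h1 : 0 < 1 / m := by positivity
  nlinarith

end Pool.Agent.Results.MP_c070b6_an.TotalAreaUnbounded
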